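import Pool.Agent.Helper92.RECTT.Main

open Pool.Agent.Helper65.LinSpace Pool.Agent.Helper65.OH Pool.Agent.Helper92
open Pool.Agent.Helper92.RECT (Within)
open Pool.Agent.Helper31.Gen5 (Hard)
open Pool.Agent.Helper31.TMS (AcceptsAt)
open Pool.Agent.Helper81.Sus2 (Decomp)
open Pool.Agent.Helper81.Gen4 (Q)

namespace Pool.Agent.Results.MP_c578c8_lc.OneHeadWindows

/-- **Turing machines with one head, of any running time and space.** Let `c > 0`. Consider Turing
machines with one head on a `D`-dimensional tape (`OneHead D`; states, addresses and the contents of the
cells are words of length at most `s`) which read an input word of length `n`, an advice word and a word
of length `3 c n`, for which the acceptance condition `Q` is used: `c n` letters are chosen in turn by two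
players, then `c n` letters are random, then again `c n` letters are chosen in turn, and more than half of
the random words must be good for the first player. A description of the tape is a word from which a
decompressor (an arbitrary machine with random access to the input, the advice and the description,
whose states have at most `a` bits) computes the contents of all cells of the box `[-2^g, 2^g)^D`, in which
the head stays. The running time and the space are not bounded. A computation is within the bounds
(`Within`) if every period in which the tape has no description of at most `c n` bits can be cut in space
(`Cut`): at most `2^k` adjacent slabs of the first coordinate, of width at most `2^b`, enclose the head (the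
other coordinates are in `[-2^b, 2^b)`), every hyperplane between two slabs is crossed at most `N` times in
the period, and in every slab at most `x` steps of the period are not free. A step is free if it leads
from a cell of the slab to a cell of the slab which the head has visited since the last change of the
content of a cell of the slab. (At most `2^h (x + 1)` steps are made in each slab, free or not; this is
automatic if `s + (b + 1) D < h`, because otherwise the machine is in a loop.) The bounds are, for
`l = h + b + ⌊log₂ n⌋ + 1`: `x s^(1 + 1/D) l^4 ≤ C (n + 1)^(3/2 + 1/D)`, `(s + l) (h + 1) l ≤ C (n + 1)^(1/2)`,
`a l^2 ≤ C (n + 1)`, `(k + 1) (g + k + (N + 1) (s + l)) l ≤ C (n + 1)`. For machines of polynomial time with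
words of `O(log n)` bits this means `x = C n^(3/2 + 1/D) / log^(5 + 1/D) n` (for one tape, `D = 1`,
`x = C n^(5/2) / log^6 n`) and `N = C n / log^3 n`.

Every language which is accepted by such machines is in `DSPACE(n)`. On the other hand there is a
language `L` in `DSPACE(n)` such that for every `D`, every machine, every decompressor and every `C` the
following holds (`Hard`) for `M = L` and for `M` the complement of `L`. There is a `c'` such that for all
`n` and all advice words `α` of length `m` the machine is correct for `M` within these bounds on at most
`2^n / 2 + c' (m + 1) 2^((n + m / c) / 2)` words of length `n`, and if the machine accepts `e` words of
length `n` which are not in `M`, then it accepts within the bounds at most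
`(√e + c' (m + 1) 2^(m / (2 c)))^2` words of length `n` in `M`. If the machine without advice accepts only
finitely many words which are not in `M`, then it accepts only finitely many words within the bounds.

The last part is a consequence for ordinary Turing machines with a read-only input tape and one work
tape, in their own terms. `Hard` holds for all these machines and all constants `K` and `C` and
decompressors, where a word is within the bounds if it is not `Busy`. A word is `Busy` if either the
machine does not accept it in time less than `2^(K l)`, `l = ⌊log₂ n⌋ + 1`, or there are a period in which
the tape has at no time a description of `c n` bits, and a window of at most `n^(3/2) / log^3 n`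
consecutive cells, each of which is visited more than `C n / log^3 n` times in the period, such that
altogether more than `C n^(5/2) / log^6 n` steps of the period are made from cells of the window. Thus
if such a machine accepts `L` (or `L` and finitely many other words), then all but finitely many words
are `Busy`. In particular every machine with one work tape which accepts `L` makes more than
`C n^(5/2) / log^6 n` steps on all but finitely many words in `L`, and if its time is polynomial, then
on all but finitely many words in `L` it visits some cell more than `C n / log^3 n` times. -/
theorem result (c : ℕ) (hc : 0 < c) :
    (∀ (D : ℕ), 0 < D → ∀ (A : OneHead D) (E : Decomp) (L : Set (List Bool)) (C : ℝ),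
      (∀ w, Q (c * w.length) (fun v => ∃ r, A.AcceptsAt w v r) → w ∈ L) →
      (∀ w ∈ L, Q (c * w.length) (Within A E c C w)) → DLINSPACE L) ∧
    ∃ L : Set (List Bool), DLINSPACE L ∧
      (∀ (D : ℕ), 0 < D → ∀ (A : OneHead D) (E : Decomp) (C : ℝ),
        Hard L c (fun w α => Q (c * w.length) fun v => ∃ r, A.AcceptsAt w (α ++ v) r)
          fun w α => Q (c * w.length) fun v => Within A E c C w (α ++ v)) ∧
      ∀ (M : TM 1) (code : M.Sym → List Bool), Function.Injective code →
        code M.blank = [] → ∀ (E : Decomp) (K : ℕ) (C : ℝ),
        Hard L c (fun w _ => ∃ t, AcceptsAt M w t) fun w _ => ¬RECTT.Busy M code E c K C w :=
  RECTT.rect_tm c hc

end Pool.Agent.Results.MP_c578c8_lc.OneHeadWindows
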