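import Pool.Agent.Helper92.HB.Moves

open Pool.Agent.Helper65.LinSpace Pool.Agent.Helper78.Mpc Pool.Agent.Helper92
open Pool.Agent.Helper92.KR (Desc Rand KHard)
open Pool.Agent.Helper92.RE (InTime)
open Pool.Agent.Helper92.RB (Fast)
open Pool.Agent.Helper31.Ink (Sparing)
open Pool.Agent.Helper81.RP (Ins)
open Pool.Agent.Helper81.Gen4 (Q)
open Pool.Agent.Helper20.BRT (InMoves)

namespace Pool.Agent.Results.MP_c578c8_lc.RandomWords

/-- **Random words.** A decompressor is a function `D` on words which is computed in linear space
(`LinComp`). The word `d` describes the word `w` of length `n` if `D (1^n 0 d) = w` (`Desc D w k`: some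
description has at most `k` letters), and `Rand D g` is the set of the words `w` which have no description
with less than `g |w|` letters. For every `c > 0` there is a decompressor `D₀` such that the
following holds for every decompressor `D` which is not worse than `D₀`, up to a constant (in particular
for `D = D₀`).

For every rational number `g` the set `Rand D g` is in `DSPACE(n)`, and it contains all words of length `n`
with less than `2^(g n + 1)` exceptions (thus almost all words if `g < 1`). But the following machines
cannot certify that a single long word is in `Rand D g`, for any `g > 0`, for any `C`.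

* Programs of random access machines (`Ins`, with the operations `+`, `-`, `*`, `/`) which do their
  work in few rounds. The registers are divided into blocks of `m` registers. A part of the computation
  is a round (`Cheap`) if there is one block such that, if the program stores into a register and later
  in this part loads from a register, then both registers are in this block, and it reads no letter
  after a store. So in a round the program first reads (registers and letters), then it loads from and
  stores into the registers of one block, and then it stores (into any registers). All other steps are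
  free; the registers whose numbers are written in the program can be used at any time. `Fast`: the
  program accepts a word of length `n` after `t` steps with numbers less than `2 ^ s`, `s > log₂ n`, and
  for some `m` these steps can be divided into `r` rounds, where, for
  `l = ⌊log₂ n⌋ + 1 + min ⌊log₂ t⌋ s`, `r s l ^ 2 ≤ C (n + 1) ^ (3 / 2)`,
  `s l ^ 2 ≤ C (n + 1) ^ (1 / 2)` and `m s l ^ 2 ≤ C (n + 1)`: for example at any time, with numbers of
  `O(log n)` bits and in `C n ^ (3 / 2) / log ^ 3 n` rounds for `m = C n / log ^ 3 n`. The number of rounds
  is at most one more than the number of stores, or of the loads and stores outside the first `m`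
  registers and steps which read a letter.
* Turing machines with a read-only input tape and `k` work tapes whose work heads rarely move
  (`InMoves`): they accept a word of length `n`, at any time, after at most `C n ^ 2 / log ^ 4 n` moves of
  the work heads.
* Turing machines with a read-only input tape and `k` work tapes which rarely change a symbol
  (`Sparing`): they accept a word of length `n` at any time, the work heads stay in the cells
  `-2 ^ b, …, 2 ^ b - 1`, and at most `r` steps change a symbol on a work tape, where, for
  `l = b + ⌊log₂ n⌋ + 1`, `r l ^ 3 ≤ C (n + 1) ^ (3 / 2)` and `l ^ 3 ≤ C (n + 1) ^ (1 / 2)`: for example in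
  any polynomial time with `C n ^ (3 / 2) / log ^ 3 n` changes.
* Turing machines with a read-only input tape and one work tape which accept a word of length `n` in time
  `C n ^ (5 / 2) / log ^ 6 n`.

The machines have a second word `y` (for Turing machines, the input word is `w y`), which is either an
advice word `α`, or `α t u v` with three words of length `c |w|` and the acceptance condition `Q`: the
letters of `t` are chosen in turn by two players, then `u` is random, then again the letters of `v` are
chosen in turn, and more than half of the words `u` must be good for the first player. For every machine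
and every `C` we have `KHard`, that is, there is a `c'` such that for all `n` and all advice words `α`:

* if all words of length `n` which the machine accepts are in `Rand D g`, then it accepts no word of
  length `n` within the bounds, if `|α| + c' < g n`;
* if the machine accepts at least `k` words of length `n` within the bounds, then it accepts at least `k`
  words `w` of length `n` which have a description with at most
  `|α| + log k + 2 log (log k + 1) + c'` letters. -/
theorem result (c : ℕ) (hc : 0 < c) :
    ∃ D₀ : List Bool → List Bool, LinComp D₀ ∧ ∀ D : List Bool → List Bool, LinComp D →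
      (∃ b : ℕ, ∀ w k, Desc D₀ w k → Desc D w (k + b)) →
      (∀ g : ℚ, DLINSPACE (Rand D g) ∧ ∀ n : ℕ,
        ({w : List Bool | w.length = n ∧ w ∉ Rand D g}.ncard : ℝ) < 2 ^ ((g : ℝ) * n + 1)) ∧
      (∀ (P : List Ins) (C : ℝ),
        KHard D (fun w α => ∃ t, Pool.Agent.Helper81.RP.AcceptsAt P w α t)
          (fun w α => Fast P C w α) ∧
        KHard D (fun w α => Q (c * w.length) fun v =>
            ∃ t, Pool.Agent.Helper81.RP.AcceptsAt P w (α ++ v) t)
          fun w α => Q (c * w.length) fun v => Fast P C w (α ++ v)) ∧
      (∀ (k : ℕ) (M : TM k) (C : ℝ),
        KHard D (fun w α => ∃ t, Pool.Agent.Helper31.TMS.AcceptsAt M (w ++ α) t)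
          (fun w α => InMoves M (fun n => C * ((n : ℝ) + 1) ^ (2 : ℝ) /
            ((Nat.log 2 n : ℝ) + 1) ^ 4) (w ++ α)) ∧
        KHard D (fun w α => Q (c * w.length) fun v =>
            ∃ t, Pool.Agent.Helper31.TMS.AcceptsAt M (w ++ (α ++ v)) t)
          fun w α => Q (c * w.length) fun v =>
            InMoves M (fun n => C * ((n : ℝ) + 1) ^ (2 : ℝ) /
              ((Nat.log 2 n : ℝ) + 1) ^ 4) (w ++ (α ++ v))) ∧
      (∀ (k : ℕ) (M : TM k) (C : ℝ),
        KHard D (fun w α => ∃ t, Pool.Agent.Helper31.TMS.AcceptsAt M (w ++ α) t)
          (fun w α => Sparing M C w α) ∧
        KHard D (fun w α => Q (c * w.length) fun v =>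
            ∃ t, Pool.Agent.Helper31.TMS.AcceptsAt M (w ++ (α ++ v)) t)
          fun w α => Q (c * w.length) fun v => Sparing M C w (α ++ v)) ∧
      ∀ (M : TM 1) (C : ℝ),
        KHard D (fun w α => ∃ t, Pool.Agent.Helper31.TMS.AcceptsAt M (w ++ α) t)
          (fun w α => InTime M (fun n => C * ((n : ℝ) + 1) ^ ((5 : ℝ) / 2) /
            ((Nat.log 2 n : ℝ) + 1) ^ 6) (w ++ α)) ∧
        KHard D (fun w α => Q (c * w.length) fun v =>
            ∃ t, Pool.Agent.Helper31.TMS.AcceptsAt M (w ++ (α ++ v)) t)
          fun w α => Q (c * w.length) fun v =>
            InTime M (fun n => C * ((n : ℝ) + 1) ^ ((5 : ℝ) / 2) /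
              ((Nat.log 2 n : ℝ) + 1) ^ 6) (w ++ (α ++ v)) :=
  HB.random_all HB.movesSim c hc

end Pool.Agent.Results.MP_c578c8_lc.RandomWords
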