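import Pool.Agent.Helper92.HB.Moves

open Pool.Agent.Helper65.LinSpace Pool.Agent.Helper78.Mpc Pool.Agent.Helper92
open Pool.Agent.Helper92.RE (enc Universal NonUniversal InTime)
open Pool.Agent.Helper92.RB (Fast)
open Pool.Agent.Helper31.Ink (Sparing)
open Pool.Agent.Helper31.Gen5 (Hard)
open Pool.Agent.Helper81.RP (Ins)
open Pool.Agent.Helper81.Gen4 (Q)
open Pool.Agent.Helper20.BRT (InMoves)

namespace Pool.Agent.Results.MP_c578c8_lc.RegularExpressions

/-- **Universality of regular expressions is hard.** The regular expressions over `{0, 1}`
(`RegularExpression Bool` of Mathlib) are written as words over `{0, 1}` in Polish notation, with three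
letters for every symbol (`enc`). `Universal` is the set of the words `enc r` of the regular expressions
`r` which describe all words, and `NonUniversal` is the set of the words `enc r` of the other ones.
(`NonUniversal` is complete for `NSPACE(n)`, Meyer and Stockmeyer 1972.)

For every `c > 0` there are a language `L` in `DSPACE(n)`, a map `f` from words to regular expressions,
computable in linear space, and a constant `b` such that `|w| ≤ |enc (f w)| ≤ b (|w| + 1)`, `f w`
describes all words if and only if `w` is not in `L`, and half of the words of length `n` are in `L`, up to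
`c' 2^(n/2)` words. The words `F w = enc (f w)` are hard for four kinds of machines. Let `N` be the length
of `F w`.

* Programs of random access machines (`Ins`, with the operations `+`, `-`, `*`, `/`) which do their
  work in few rounds. The registers are divided into blocks of `m` registers. A part of the computation
  is a round (`Cheap`) if there is one block such that, if the program stores into a register and later
  in this part loads from a register, then both registers are in this block, and it reads no letter
  after a store. So in a round the program first reads (registers and letters), then it loads from and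
  stores into the registers of one block, and then it stores (into any registers). All other steps are
  free; the registers whose numbers are written in the program can be used at any time. `Fast`: the
  program accepts `F w` after `t` steps with numbers less than `2 ^ s`, `s > log₂ N`, and for some `m`
  these steps can be divided into `r` rounds, where, for `l = ⌊log₂ N⌋ + 1 + min ⌊log₂ t⌋ s`,
  `r s l ^ 2 ≤ C (N + 1) ^ (3 / 2)`, `s l ^ 2 ≤ C (N + 1) ^ (1 / 2)` and `m s l ^ 2 ≤ C (N + 1)`: for
  example at any time, with numbers of `O(log N)` bits and in `C N ^ (3 / 2) / log ^ 3 N` rounds for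
  `m = C N / log ^ 3 N`. The number of rounds is at most one more than the number of stores, or of the
  loads and stores outside the first `m` registers and steps which read a letter.
* Turing machines with a read-only input tape and `k` work tapes whose work heads rarely move
  (`InMoves`): they accept `F w`, at any time, after at most `C N ^ 2 / log ^ 4 N` moves of the work heads
  (here `N` is the length of the whole input word).
* Turing machines with a read-only input tape and `k` work tapes which rarely change a symbol
  (`Sparing`): they accept `F w` at any time, the work heads stay in the cells `-2 ^ b, …, 2 ^ b - 1`, and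
  at most `r` steps change a symbol on a work tape, where, for `l = b + ⌊log₂ N⌋ + 1`,
  `r l ^ 3 ≤ C (N + 1) ^ (3 / 2)` and `l ^ 3 ≤ C (N + 1) ^ (1 / 2)`: for example in any polynomial time
  with `C N ^ (3 / 2) / log ^ 3 N` changes.
* Turing machines with a read-only input tape and one work tape which accept `F w` in time
  `C N ^ (5 / 2) / log ^ 6 N`.

The last part of the theorem is the plain statement: for `U = Universal` and for `U = NonUniversal`,
every such machine which accepts only words in `U` accepts only finitely many words `F w` within these
bounds, for every `C`. So it is slow on all but finitely many of the words `F w` in `U`, if it accepts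
`U`.

The other parts are about machines with a second word `y` (for Turing machines, the input word is
`F w y`), which is either an advice word `α` that depends only on the length of `w`, or `α t u v` with
three words of length `c |w|` and the acceptance condition `Q`: the letters of `t` are chosen in turn by
two players, then `u` is random, then again the letters of `v` are chosen in turn, and more than half of
the words `u` must be good for the first player. For every machine and every `C` we have `Hard`, that is,
there is a `c'` such that for `M = L` and for the complement `M` of `L`, for all `n` and `α`, `m = |α|`: the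
machine is correct for `M` within these bounds on at most `2^n / 2 + c' (m + 1) 2^((n + m / c) / 2)` words
`w` of length `n`; if it accepts `F w` for `e` words `w` of length `n` which are not in `M`, then it accepts
`F w` within the bounds for at most `(√e + c' (m + 1) 2^(m / (2 c)))^2` words `w` of length `n` in `M`; if
(without advice) it accepts `F w` for finitely many words `w` which are not in `M`, then it accepts `F w`
within the bounds for finitely many `w`. -/
theorem result (c : ℕ) (hc : 0 < c) :
    ∃ (L : Set (List Bool)) (f : List Bool → RegularExpression Bool) (b : ℕ), DLINSPACE L ∧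
      LinComp (fun w => enc (f w)) ∧
      (∀ w, w.length ≤ (enc (f w)).length ∧ (enc (f w)).length ≤ b * (w.length + 1)) ∧
      (∀ w, (f w).matches' = ⊤ ↔ w ∉ L) ∧
      (∃ c' : ℝ, ∀ n : ℕ, |({w : List Bool | w.length = n ∧ w ∈ L}.ncard : ℝ) - 2 ^ n / 2| ≤
        c' * 2 ^ ((n : ℝ) / 2)) ∧
      (∀ (P : List Ins) (C : ℝ),
        Hard L c (fun w α => ∃ t, Pool.Agent.Helper81.RP.AcceptsAt P (enc (f w)) α t)
          (fun w α => Fast P C (enc (f w)) α) ∧
        Hard L c (fun w α => Q (c * w.length) fun v =>
            ∃ t, Pool.Agent.Helper81.RP.AcceptsAt P (enc (f w)) (α ++ v) t)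
          (fun w α => Q (c * w.length) fun v => Fast P C (enc (f w)) (α ++ v))) ∧
      (∀ (k : ℕ) (M : TM k) (C : ℝ),
        Hard L c (fun w α => ∃ t, Pool.Agent.Helper31.TMS.AcceptsAt M (enc (f w) ++ α) t)
          (fun w α => InMoves M (fun n => C * ((n : ℝ) + 1) ^ (2 : ℝ) /
            ((Nat.log 2 n : ℝ) + 1) ^ 4) (enc (f w) ++ α)) ∧
        Hard L c (fun w α => Q (c * w.length) fun v =>
            ∃ t, Pool.Agent.Helper31.TMS.AcceptsAt M (enc (f w) ++ (α ++ v)) t)
          (fun w α => Q (c * w.length) fun v =>
            InMoves M (fun n => C * ((n : ℝ) + 1) ^ (2 : ℝ) /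
              ((Nat.log 2 n : ℝ) + 1) ^ 4) (enc (f w) ++ (α ++ v)))) ∧
      (∀ (k : ℕ) (M : TM k) (C : ℝ),
        Hard L c (fun w α => ∃ t, Pool.Agent.Helper31.TMS.AcceptsAt M (enc (f w) ++ α) t)
          (fun w α => Sparing M C (enc (f w)) α) ∧
        Hard L c (fun w α => Q (c * w.length) fun v =>
            ∃ t, Pool.Agent.Helper31.TMS.AcceptsAt M (enc (f w) ++ (α ++ v)) t)
          (fun w α => Q (c * w.length) fun v => Sparing M C (enc (f w)) (α ++ v))) ∧
      (∀ (M : TM 1) (C : ℝ),
        Hard L c (fun w α => ∃ t, Pool.Agent.Helper31.TMS.AcceptsAt M (enc (f w) ++ α) t)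
          (fun w α => InTime M (fun n => C * ((n : ℝ) + 1) ^ ((5 : ℝ) / 2) /
            ((Nat.log 2 n : ℝ) + 1) ^ 6) (enc (f w) ++ α)) ∧
        Hard L c (fun w α => Q (c * w.length) fun v =>
            ∃ t, Pool.Agent.Helper31.TMS.AcceptsAt M (enc (f w) ++ (α ++ v)) t)
          (fun w α => Q (c * w.length) fun v =>
            InTime M (fun n => C * ((n : ℝ) + 1) ^ ((5 : ℝ) / 2) /
              ((Nat.log 2 n : ℝ) + 1) ^ 6) (enc (f w) ++ (α ++ v)))) ∧
      ∀ U : Set (List Bool), U = Universal ∨ U = NonUniversal →
        (∀ (P : List Ins) (C : ℝ),
          (∀ x, (∃ t, Pool.Agent.Helper81.RP.AcceptsAt P x [] t) → x ∈ U) →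
          {w | Fast P C (enc (f w)) []}.Finite) ∧
        (∀ (k : ℕ) (M : TM k) (C : ℝ),
          (∀ x, (∃ t, Pool.Agent.Helper31.TMS.AcceptsAt M x t) → x ∈ U) →
          {w | InMoves M (fun n => C * ((n : ℝ) + 1) ^ (2 : ℝ) /
            ((Nat.log 2 n : ℝ) + 1) ^ 4) (enc (f w))}.Finite) ∧
        (∀ (k : ℕ) (M : TM k) (C : ℝ),
          (∀ x, (∃ t, Pool.Agent.Helper31.TMS.AcceptsAt M x t) → x ∈ U) →
          {w | Sparing M C (enc (f w)) []}.Finite) ∧
        ∀ (M : TM 1) (C : ℝ),
          (∀ x, (∃ t, Pool.Agent.Helper31.TMS.AcceptsAt M x t) → x ∈ U) →
          {w | InTime M (fun n => C * ((n : ℝ) + 1) ^ ((5 : ℝ) / 2) /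
            ((Nat.log 2 n : ℝ) + 1) ^ 6) (enc (f w))}.Finite :=
  HB.regex_all HB.movesSim c hc

end Pool.Agent.Results.MP_c578c8_lc.RegularExpressions
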